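import Pool.Agent.H71.ASF.StmtsM

/-! Project ASF, module INT: no 2- and 3-torsion when 6 is a unit. -/

namespace ASF

universe u

theorem int : INTStmt.{u} := by
  intro R _ A _ _ h6
  have h2 : IsUnit (2 : R) := by
    have : (6 : R) = 2 * 3 := by norm_num
    rw [this] at h6
    exact isUnit_of_mul_isUnit_left h6
  have h3 : IsUnit (3 : R) := by
    have : (6 : R) = 3 * 2 := by norm_num
    rw [this] at h6
    exact isUnit_of_mul_isUnit_left h6
  constructor
  · intro x hx
    have : (2 : R) • x = 0 := by rw [two_smul]; exact hx
    exact (IsUnit.smul_eq_zero h2).mp this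
  · intro x hx
    have : (3 : R) • x = 0 := by
      have e : (3 : R) = 1 + 1 + 1 := by norm_num
      rw [e, add_smul, add_smul, one_smul]; exact hx
    exact (IsUnit.smul_eq_zero h3).mp this

end ASF
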