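import Pool.Agent.H71.ASF.StmtsM

/-! Project ASF, module ISO: elementary facts on solvability. -/

namespace ASF

universe u

set_option linter.unusedSectionVars false

namespace ISO

variable {R : Type} [CommRing R] {A : Type*} [NonUnitalNonAssocRing A] [Module R A]
  [IsScalarTower R A A] [SMulCommClass R A A]

theorem mulS_mono {I I' J J' : Submodule R A} (h : I ≤ I') (h' : J ≤ J') :
    mulS I J ≤ mulS I' J' := by
  apply Submodule.span_mono
  rintro z ⟨x, hx, y, hy, rfl⟩
  exact ⟨x, h hx, y, h' hy, rfl⟩

theorem der_mono {I J : Submodule R A} (h : I ≤ J) (n : ℕ) : der I n ≤ der J n := by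
  induction n with
  | zero => exact h
  | succ n ih => exact mulS_mono ih ih

theorem der_der (I : Submodule R A) (m n : ℕ) : der (der I m) n = der I (m + n) := by
  induction n with
  | zero => rfl
  | succ n ih =>
    change mulS (der (der I m) n) (der (der I m) n) = mulS (der I (m + n)) (der I (m + n))
    rw [ih]

end ISO

theorem iso : ISOStmt.{u} := by
  intro R _ A _ _ _ _
  refine ⟨fun I J h n => ISO.der_mono h n, fun I m n => ISO.der_der I m n, ?_, ?_⟩
  · rintro I K m h ⟨n, hn⟩
    refine ⟨m + n, ?_⟩
    rw [← ISO.der_der, eq_bot_iff, ← hn]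
    exact ISO.der_mono h n
  · intro I h
    refine ⟨1, ?_⟩
    change mulS I I = ⊥
    rw [mulS, Submodule.span_eq_bot]
    rintro z ⟨x, hx, y, hy, rfl⟩
    exact h x hx y hy

end ASF
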