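import Pool.Agent.H71.ASF.Stmts

/-! Project ASF, module NBC. -/

namespace ASF

universe u

theorem NBC.wd_zero {A : Type*} [NonUnitalNonAssocRing A] (l : List (Bool × A)) :
    wd l (0 : A) = 0 := by
  induction l with
  | nil => rfl
  | cons p l ih =>
    obtain ⟨b, a⟩ := p
    cases b
    · change wd l 0 * a = 0
      rw [ih, zero_mul]
    · change a * wd l 0 = 0
      rw [ih, mul_zero]

theorem nbc (h1 : NW3Stmt.{u}) : NBCStmt.{u} := by
  intro A _ _ _ b c hbb hcc hbc hcb x y hx1 hx2 l m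
  have hD := dl_isDer hbc hcb
  have zr1 : ∀ z : A, dl b c z * b = 0 := dlb_zero hbb hbc hcb
  have zl1 : ∀ z : A, b * dl b c z = 0 := bdl_zero hbb hbc hcb
  have zr2 : ∀ z : A, dl b c z * c = 0 := fun z => by
    rw [dl_swap c b, neg_mul, dlb_zero hcc hcb hbc, neg_zero]
  have zl2 : ∀ z : A, c * dl b c z = 0 := fun z => by
    rw [dl_swap c b, mul_neg, bdl_zero hcc hcb hbc, neg_zero]
  set w := dl b c y with hw
  have hxb : ∀ z : A, (z * b) * w = dl b c ((z * b) * y) := fun z => by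
    rw [hD.mul, hD.mul, zr1, dl_null hbb hbc, mul_zero, add_zero, zero_mul, zero_add]
  have hxc : ∀ z : A, (z * c) * w = dl b c ((z * c) * y) := fun z => by
    rw [hD.mul, hD.mul, zr2, dl_null hcb hbc, mul_zero, add_zero, zero_mul, zero_add]
  have bw : b * w = 0 := zl1 y
  have wb : w * b = 0 := zr1 y
  have cw : c * w = 0 := zl2 y
  have wc : w * c = 0 := zr2 y
  have ww0 : w * w = 0 := dlmul hbb hbc hcb y y
  have dbw : ∀ z : A, dl b w z = dl b c ((z * b) * y) := fun z => by rw [dl_r bw, hxb]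
  have dwb : ∀ z : A, dl w b z = - dl b c ((z * b) * y) := fun z => by
    rw [dl_swap b w, dbw]
  have dcw : ∀ z : A, dl c w z = dl b c ((z * c) * y) := fun z => by rw [dl_r cw, hxc]
  have hL : L3H b c w := by
    refine ⟨⟨hbb, hcc, ww0, hbc, hcb, bw, wb, cw, wc⟩, ?_, ?_, ?_, ?_, ?_, ?_⟩
    · intro z; exact dlmul hbb hbc hcb z y
    · intro z; exact dlmul hbb hbc hcb y z
    · intro z; rw [dcw, zr1]
    · intro z; rw [dcw, zl1]
    · intro z; rw [dwb, neg_mul, zr2, neg_zero]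
    · intro z; rw [dwb, mul_neg, zl2, neg_zero]
  obtain ⟨g1, g2⟩ := h1 A b c w hL x l m
  rw [dcw, dwb, hx1, hx2, neg_zero, NBC.wd_zero, zero_mul, zero_mul, add_zero, add_zero] at g1
  rw [dcw, dwb, hx1, hx2, neg_zero, NBC.wd_zero, mul_zero, mul_zero, add_zero, add_zero] at g2
  exact ⟨g1, g2⟩

end ASF
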