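import Pool.Agent.H71.ASF.Stmts

/-! Project ASF, module NH4. -/

namespace ASF

universe u

namespace NH4

variable {A : Type*} [NonUnitalNonAssocRing A]

theorem wd_add (l : List (Bool × A)) (x y : A) : wd l (x + y) = wd l x + wd l y := by
  induction l with
  | nil => rfl
  | cons p l ih =>
    obtain ⟨b, a⟩ := p
    cases b
    · change wd l (x + y) * a = wd l x * a + wd l y * a
      rw [ih, add_mul]
    · change a * wd l (x + y) = a * wd l x + a * wd l y
      rw [ih, mul_add]

theorem wd_neg (l : List (Bool × A)) (x : A) : wd l (-x) = - wd l x := by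
  induction l with
  | nil => rfl
  | cons p l ih =>
    obtain ⟨b, a⟩ := p
    cases b
    · change wd l (-x) * a = - (wd l x * a)
      rw [ih, neg_mul]
    · change a * wd l (-x) = - (a * wd l x)
      rw [ih, mul_neg]

theorem wd_app (l m : List (Bool × A)) (x : A) : wd (l ++ m) x = wd l (wd m x) := by
  induction l with
  | nil => rfl
  | cons p l ih =>
    obtain ⟨b, a⟩ := p
    cases b
    · change wd (l ++ m) x * a = wd l (wd m x) * a
      rw [ih]
    · change a * wd (l ++ m) x = a * wd l (wd m x)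
      rw [ih]

end NH4

theorem nh4 (h1 : CTLStmt.{u}) (h2 : NW3Stmt.{u}) (h3 : NBCStmt.{u}) : NH4Stmt.{u} := by
  intro A _ _ _ B X Y hB hV hI
  have hL : ∀ a ∈ B, ∀ b ∈ B, ∀ c ∈ B, L3H a b c := fun a ha b hb c hc =>
    ⟨hB.n3 ha hb hc, fun x => (hV a ha b hb c hc x).1, fun x => (hV a ha b hb c hc x).2,
      fun x => (hV b hb c hc a ha x).1, fun x => (hV b hb c hc a ha x).2,
      fun x => (hV c hc a ha b hb x).1, fun x => (hV c hc a ha b hb x).2⟩
  have hw : ∀ (m : List (Bool × A)) (y c d : A), c ∈ B → d ∈ B →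
      wd m (dl c d y) = wd (m ++ [(false, d), (true, y)]) c := by
    intro m y c d hc hd
    rw [NH4.wd_app, dl_r (hB c hc d hd)]
    rfl
  have key1 : ∀ x ∈ X, ∀ y ∈ Y, ∀ l m : List (Bool × A), ∀ a ∈ B, ∀ b ∈ B, ∀ c ∈ B, ∀ d ∈ B,
      wd l (dl a b x) * wd m (dl c d y) = 0 := by
    intro x hx y hy l m
    refine h1 A A B (fun a b c d => wd l (dl a b x) * wd m (dl c d y)) NT.two NT.three
      ?_ ?_ ?_ ?_ ?_ ?_
    · intro a _ a' _ b _ c _ d _
      change wd l (dl (a + a') b x) * _ = _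
      rw [dl_add1, NH4.wd_add, add_mul]
    · intro a _ b _ c _ c' _ d _
      change _ * wd m (dl (c + c') d y) = _
      rw [dl_add1, NH4.wd_add, mul_add]
    · intro a _ b _ c _ d _
      change wd l (dl b a x) * _ = _
      rw [dl_swap a b, NH4.wd_neg, neg_mul]
    · intro a _ b _ c _ d _
      change _ * wd m (dl d c y) = _
      rw [dl_swap c d, NH4.wd_neg, mul_neg]
    · intro a ha b hb c hc d hd
      change wd l (dl a b x) * wd m (dl c d y) + wd l (dl b c x) * wd m (dl a d y)
        + wd l (dl c a x) * wd m (dl b d y) = 0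
      rw [hw m y c d hc hd, hw m y a d ha hd, hw m y b d hb hd]
      exact (h2 A a b c (hL a ha b hb c hc) x l _).1
    · intro a ha b hb
      exact (h3 A a b (hB a ha a ha) (hB b hb b hb) (hB a ha b hb) (hB b hb a ha) x y
        (hI a ha b hb a ha x hx y hy) (hI a ha b hb b hb x hx y hy) l m).1
  have key2 : ∀ x ∈ X, ∀ y ∈ Y, ∀ l m : List (Bool × A), ∀ a ∈ B, ∀ b ∈ B, ∀ c ∈ B, ∀ d ∈ B,
      wd m (dl c d y) * wd l (dl a b x) = 0 := by
    intro x hx y hy l m
    refine h1 A A B (fun a b c d => wd m (dl c d y) * wd l (dl a b x)) NT.two NT.three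
      ?_ ?_ ?_ ?_ ?_ ?_
    · intro a _ a' _ b _ c _ d _
      change _ * wd l (dl (a + a') b x) = _
      rw [dl_add1, NH4.wd_add, mul_add]
    · intro a _ b _ c _ c' _ d _
      change wd m (dl (c + c') d y) * _ = _
      rw [dl_add1, NH4.wd_add, add_mul]
    · intro a _ b _ c _ d _
      change _ * wd l (dl b a x) = _
      rw [dl_swap a b, NH4.wd_neg, mul_neg]
    · intro a _ b _ c _ d _
      change wd m (dl d c y) * _ = _
      rw [dl_swap c d, NH4.wd_neg, neg_mul]
    · intro a ha b hb c hc d hd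
      change wd m (dl c d y) * wd l (dl a b x) + wd m (dl a d y) * wd l (dl b c x)
        + wd m (dl b d y) * wd l (dl c a x) = 0
      rw [hw m y c d hc hd, hw m y a d ha hd, hw m y b d hb hd]
      exact (h2 A a b c (hL a ha b hb c hc) x l _).2
    · intro a ha b hb
      exact (h3 A a b (hB a ha a ha) (hB b hb b hb) (hB a ha b hb) (hB b hb a ha) x y
        (hI a ha b hb a ha x hx y hy) (hI a ha b hb b hb x hx y hy) l m).2
  intro b1 hb1 b2 hb2 b3 hb3 b4 hb4 x hx y hy l m
  exact ⟨key1 x hx y hy l m b1 hb1 b2 hb2 b3 hb3 b4 hb4,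
    key2 x hx y hy l m b1 hb1 b2 hb2 b3 hb3 b4 hb4⟩

end ASF
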