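import Pool.Agent.H71.ASF.StmtsM

/-! Project ASF, module SK3: if `nu = 0` then the ideal generated by `V_3` has square zero. -/

namespace ASF

universe u

theorem sk3 (h1 : WO1Stmt.{u}) (h2 : NLMStmt.{u}) (_h3 : IDWStmt.{u}) (h4 : IDPStmt.{u})
    (h5 : INTStmt.{u}) : SK3Stmt.{u} := by
  intro R _ h6 A _ _ _ _ _ B hB hnu
  have : NT A := h5 R A h6
  refine h4 R A (V3S B) (V3S B) ?_
  have hNB : NB0 B.toAddSubgroup := ⟨hB, hnu⟩
  have key : ∀ b1 ∈ B, ∀ b2 ∈ B, ∀ (p : A), (∀ x, O1 (dl b1 b2 x) p) →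
      ∀ (x : A) (l m : List (Bool × A)), wd l (dl b1 b2 x) * wd m p = 0 := by
    intro b1 hb1 b2 hb2 p hp x l m
    have h := h2 A Unit (fun _ => dl b1 b2) (fun _ => p)
      (fun _ => dl_isDer (hB b1 hb1 b2 hb2) (hB b2 hb2 b1 hb1)) ?_ x l m
    · simpa using h.1
    · intro x
      have o := hp x
      refine ⟨by simpa using o.rs, by simpa using o.sr, ?_, ?_, ?_, ?_, ?_, ?_, ?_, ?_⟩ <;>
        intro a
      · simpa using o.ra_s a
      · simpa using o.ar_s a
      · simpa using o.s_ra a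
      · simpa using o.s_ar a
      · simpa using o.r_sa a
      · simpa using o.r_as a
      · simpa using o.sa_r a
      · simpa using o.as_r a
  have hy : ∀ y ∈ V3S B, ∀ b1 ∈ B, ∀ b2 ∈ B, ∀ x, O1 (dl b1 b2 x) y := by
    rintro y ⟨b, hb, c, hc, d, hd, z, hz⟩ b1 hb1 b2 hb2 x
    have h := h1 A B.toAddSubgroup hNB b1 hb1 b2 hb2 b hb c hc d hd z x
    rcases hz with rfl | rfl
    · exact h.1
    · exact h.2
  rintro x ⟨b, hb, c, hc, d, hd, z, hz⟩ y hyV l m
  rcases hz with rfl | rfl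
  · rw [← dl_mulr (hB b hb c hc) (hB c hc b hb) (hB d hd b hb)]
    exact key b hb c hc y (hy y hyV b hb c hc) _ l m
  · rw [← dl_mull (hB b hb c hc) (hB c hc b hb) (hB d hd b hb)]
    exact key b hb c hc y (hy y hyV b hb c hc) _ l m

end ASF
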