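import Pool.Agent.H71.ASF.StmtsM

/-! Project ASF, module SN0: the case `nu = 0`. -/

namespace ASF

universe u

theorem sn0 (h1 : SK3Stmt.{u}) (h2 : SV3Stmt.{u}) (h3 : IDWStmt.{u}) (h4 : ISOStmt.{u})
    (h5 : DESStmt.{u}) (_h6 : INTStmt.{u}) : SN0Stmt.{u} := by
  intro R _ h6 q _ A _ _ _ _ _ 𝒜 B hGP hnu
  obtain ⟨i1, i2, -, -⟩ := h3 R A (V3S B)
  obtain ⟨-, -, j3, j4⟩ := h4 R A
  have hK : ∀ x ∈ Idl R (V3S B), ∀ y ∈ Idl R (V3S B), x * y = 0 :=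
    h1 R h6 A B hGP.null hnu
  obtain ⟨m, hm⟩ := h5 R A q 𝒜 B (Idl R (V3S B)) hGP i1 (by
    intro A' _ _ _ _ _ π hπ hs hker hGP'
    refine h2 R h6 q A' (fun i => (𝒜 i).map π) (B.map π) hGP' ?_
    rintro b1 ⟨b1, hb1, rfl⟩ b2 ⟨b2, hb2, rfl⟩ b3 ⟨b3, hb3, rfl⟩ x
    obtain ⟨x, rfl⟩ := hs x
    have e : dl (π b1) (π b2) (π x) = π (dl b1 b2 x) := by
      simp only [dl, asc, map_sub, hπ]
    rw [e, ← hπ, ← hπ, hker, hker]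
    exact ⟨i2 ⟨b1, hb1, b2, hb2, b3, hb3, x, Or.inl rfl⟩,
      i2 ⟨b1, hb1, b2, hb2, b3, hb3, x, Or.inr rfl⟩⟩)
  exact j3 _ _ m hm (j4 _ hK)

end ASF
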