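import Pool.Agent.H71.ASF.StmtsM

/-! Project ASF, module TNU: nuclear elements of alternative rings. -/

namespace ASF

universe u

theorem tnu : TNUStmt.{u} := by
  intro A _ _ n hn a b c
  have h2 : ∀ a b : A, asc a n b = 0 := fun a b => by rw [asc_s12 n a b, hn, neg_zero]
  have h3 : ∀ a b : A, asc a b n = 0 := fun a b => by rw [← asc_cyc' a b n]; exact hn a b
  have hna : ∀ a b c : A, asc (n * a) b c = n * asc a b c := fun a b c => by
    have t := teich n a b c
    rw [hn, hn, hn, zero_mul, add_zero, add_zero, sub_zero] at t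
    exact t
  have hk : ∀ a b c : A, kl n a b c = 0 := fun a b c => by
    have h := kl_cyc n a b c
    have h' : kl a b c n = 0 := by
      rw [kl, h3, h3, h3, mul_zero, zero_mul]; simp
    rw [h'] at h
    exact neg_eq_zero.mp h.symm
  have han : ∀ a b c : A, asc (a * n) b c = n * asc a b c := fun a b c => by
    have h := kl_s12 n a b c
    rw [hk, neg_zero, kl, hn, zero_mul, sub_zero] at h
    exact sub_eq_zero.mp h
  refine ⟨h2 a b, h3 a b, ?_, hna a b c, ?_, ?_, ?_, ?_⟩
  · intro x y
    rw [cm, asc_sub1, hna, han, sub_self]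
  · intro m hm x y
    rw [hna, hm, mul_zero]
  · intro m hm x y
    rw [asc_add1, hn, hm, add_zero]
  · intro x y
    rw [asc_neg1, hn, neg_zero]
  · have h := cm_mul n b a
    rw [hn, smul_zero, sub_zero] at h
    exact h

end ASF
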